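import Pool.Agent.ASO.Stmts8
import Pool.Agent.Helper85_AT3.LSB

/-!
# Squad ASO, row ESY: the group `V₀` and the automorphisms `E₀`, for `G` and for `N(V)`
-/

open scoped BigOperators

noncomputable section

namespace Pool.Agent.PP.SO.H43

open Pool.Agent.Helper51_AWC Pool.Agent.Helper79_WRA Pool.Agent.PP Pool.Agent.PP.KF
open Pool.Agent.PP.K9 Pool.Agent.PP.K9.H97 Pool.Agent.PP.H75 Pool.Agent.PP.T3

attribute [local instance] Ideal.Quotient.field

section gen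

variable {G V₀ F : Type} [Group G] [CommGroup V₀] (i : V₀ →* G) (T : Subgroup G)

/-- the automorphisms induced by the elements of `T` -/
def autT : Subgroup (MulAut V₀) where
  carrier := {σ | ∃ t ∈ T, ∀ v, t * i v * t⁻¹ = i (σ v)}
  one_mem' := ⟨1, T.one_mem, fun v => by simp⟩
  mul_mem' := by
    rintro σ τ ⟨s, hs, h1⟩ ⟨t, ht, h2⟩
    refine ⟨s * t, T.mul_mem hs ht, fun v => ?_⟩
    rw [MulAut.mul_apply, ← h1, ← h2]
    group
  inv_mem' := by
    rintro σ ⟨s, hs, h1⟩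
    refine ⟨s⁻¹, T.inv_mem hs, fun v => ?_⟩
    have h2 := h1 (σ⁻¹ v)
    have h3 : σ (σ⁻¹ v) = v := by
      rw [← MulAut.mul_apply, mul_inv_cancel, MulAut.one_apply]
    rw [h3] at h2
    rw [← h2]
    group

theorem exists_aut [Finite V₀] (hi : Function.Injective i) {t : G}
    (ht : ∀ v, ∃ w, t * i v * t⁻¹ = i w) : ∃ σ : MulAut V₀, ∀ v, t * i v * t⁻¹ = i (σ v) := by
  choose f hf using ht
  have hm : ∀ v w, f (v * w) = f v * f w := by
    intro v w
    apply hi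
    rw [← hf, map_mul, map_mul, ← hf, ← hf]
    group
  have hinj : Function.Injective f := by
    intro v w h
    apply hi
    have h1 := hf v
    rw [h, ← hf w] at h1
    exact mul_left_cancel (mul_right_cancel h1)
  let g : V₀ →* V₀ := MonoidHom.mk' f hm
  exact ⟨MulEquiv.ofBijective g (Finite.injective_iff_bijective.1 hinj), fun v => hf v⟩

end gen

/-- the general form, with given `V₀` and `i` -/
theorem esy_gen {ℓ : ℕ} [Fact ℓ.Prime] {F : Type} [Field F] {G V₀ : Type} [Group G] [Finite G]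
    [CommGroup V₀] [Finite V₀] {e : G → F} {V : Subgroup G} {γ : G → F} (hL : Ld ℓ e V γ)
    (hFr : T8.Fr V γ) (hexp : ∀ v ∈ V, v ^ ℓ = 1) (hcd : Nat.card V = ℓ ^ 2) (i : V₀ →* G)
    (hi : Function.Injective i) (hr : i.range = V) :
  ∃ (E₀ : Subgroup (MulAut V₀)) (j : V₀ →* Subgroup.normalizer (V : Set G)), Fr ℓ V₀ E₀ ∧
    (Function.Injective i ∧ i.range = V ∧
      (∀ t ∈ Tg V γ, ∃ σ ∈ E₀, ∀ v, t * i v * t⁻¹ = i (σ v)) ∧
      ∀ σ ∈ E₀, ∃ t ∈ Tg V γ, ∀ v, t * i v * t⁻¹ = i (σ v)) ∧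
    Function.Injective j ∧ j.range = V.subgroupOf (Subgroup.normalizer (V : Set G)) ∧
      (∀ t ∈ Tg (V.subgroupOf (Subgroup.normalizer (V : Set G)))
        (fun t : Subgroup.normalizer (V : Set G) => γ t), ∃ σ ∈ E₀, ∀ v, t * j v * t⁻¹ = j (σ v)) ∧
      ∀ σ ∈ E₀, ∃ t ∈ Tg (V.subgroupOf (Subgroup.normalizer (V : Set G)))
        (fun t : Subgroup.normalizer (V : Set G) => γ t), ∀ v, t * j v * t⁻¹ = j (σ v) := by
  have hmem : ∀ v, i v ∈ V := fun v => hr ▸ ⟨v, rfl⟩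
  have hVX : V ≤ Subgroup.normalizer (V : Set G) := Subgroup.le_normalizer
  have hCX := T3.H85.cent_le_norm V
  have hTg : ∀ t : Subgroup.normalizer (V : Set G),
      t ∈ Tg (V.subgroupOf (Subgroup.normalizer (V : Set G)))
        (fun t : Subgroup.normalizer (V : Set G) => γ t) ↔ (t : G) ∈ Tg V γ := by
    intro t
    rw [T3.H85.Tg_eq hVX hCX hL.gam.supp, Subgroup.mem_subgroupOf]
    exact ⟨fun h => h.1, fun h => ⟨h, t.2⟩⟩
  have hact : ∀ t ∈ Tg V γ, ∃ σ ∈ autT i (Tg V γ), ∀ v, t * i v * t⁻¹ = i (σ v) := by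
    intro t ht
    obtain ⟨σ, hσ⟩ := exists_aut i hi (t := t) (fun v => by
      have h1 := (Subgroup.mem_normalizer_iff.1 ht.1 (i v)).1 (hmem v)
      rw [← hr] at h1
      obtain ⟨w, hw⟩ := h1
      exact ⟨w, hw.symm⟩)
    exact ⟨σ, ⟨t, ht, hσ⟩, hσ⟩
  refine ⟨autT i (Tg V γ), i.codRestrict (Subgroup.normalizer (V : Set G))
    (fun v => hVX (hmem v)), ⟨?_, ?_, ?_⟩, ⟨hi, hr, hact, fun σ hσ => hσ⟩, ?_, ?_, ?_, ?_⟩
  · intro v
    apply hi
    rw [map_pow, hexp _ (hmem v), map_one]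
  · rw [← hcd, ← hr]
    exact Nat.card_congr (MonoidHom.ofInjective hi).toEquiv
  · rintro σ ⟨t, ht, hσ⟩ hne v hv
    by_contra hv1
    apply hne
    have h1 := hσ v
    rw [hv] at h1
    have h2 := hFr t ht (i v) (hmem v) (fun h => hv1 (hi (h.trans (map_one i).symm)))
      (mul_inv_eq_iff_eq_mul.1 h1)
    apply MulEquiv.ext
    intro w
    apply hi
    rw [← hσ w, ← Subgroup.mem_centralizer_iff.1 h2 (i w) (hmem w), mul_inv_cancel_right]
    rfl
  · intro v w h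
    exact hi (congrArg Subtype.val h)
  · ext x
    rw [Subgroup.mem_subgroupOf]
    constructor
    · rintro ⟨v, rfl⟩
      exact hmem v
    · intro hx
      have h1 : (x : G) ∈ i.range := hr.symm ▸ hx
      obtain ⟨v, hv⟩ := h1
      exact ⟨v, Subtype.ext hv⟩
  · intro t ht
    obtain ⟨σ, hσ, h1⟩ := hact t ((hTg t).1 ht)
    exact ⟨σ, hσ, fun v => Subtype.ext (h1 v)⟩
  · rintro σ ⟨t, ht, h1⟩
    exact ⟨⟨t, ht.1⟩, (hTg ⟨t, ht.1⟩).2 ht, fun v => Subtype.ext (h1 v)⟩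

/-- ESY -/
theorem esy : EsyStmt := by
  intro ℓ _ M _ hM G _ _ e V γ hL hFr hexp hcd
  let inst : CommGroup V := { (inferInstance : Group V) with
    mul_comm := fun a b => Subtype.ext (hL.ab a a.2 b b.2) }
  let i : V →* G := { toFun := Subtype.val, map_one' := rfl, map_mul' := fun _ _ => rfl }
  have hi : Function.Injective i := Subtype.val_injective
  have hr : i.range = V := by
    ext x
    constructor
    · rintro ⟨v, rfl⟩
      exact v.2
    · intro hx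
      exact ⟨⟨x, hx⟩, rfl⟩
  obtain ⟨E₀, j, h⟩ := esy_gen hL hFr hexp hcd i hi hr
  exact ⟨V, inst, inferInstance, E₀, i, j, h⟩

end Pool.Agent.PP.SO.H43
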