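import Pool.Agent.ASO.Stmts7

/-!
# Squad ASO, row CMG: the comparison group
-/

open scoped BigOperators

noncomputable section

namespace Pool.Agent.PP.SO.H43

/-- `(1 + x) ^ t` modulo `x ^ 2` -/
theorem pow_one_add (x : ℤ) (t : ℕ) : ∃ c : ℤ, (1 + x) ^ t = 1 + t * x + x ^ 2 * c := by
  induction t with
  | zero => exact ⟨0, by simp⟩
  | succ t ih =>
    obtain ⟨c, hc⟩ := ih
    refine ⟨c + t + x * c, ?_⟩
    rw [pow_succ, hc]
    push_cast
    ring

/-- every number `1` modulo `ℓ` is a power of `g` modulo `ℓ ^ k` -/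
theorem exn (ℓ : ℕ) [hp : Fact ℓ.Prime] (hl : ℓ ≠ 2) (g : ℤ) (hg : (ℓ : ℤ) ∣ g - 1)
    (hg2 : ¬ (ℓ : ℤ) ^ 2 ∣ g - 1) (k : ℕ) : ∀ U : ℤ, (ℓ : ℤ) ∣ U - 1 →
    ∃ n : ℕ, (ℓ : ℤ) ^ k ∣ g ^ n - U := by
  induction k with
  | zero => exact fun U _ => ⟨0, by simp⟩
  | succ k ih =>
    intro U hU
    rcases Nat.eq_zero_or_pos k with hk | hk
    · subst hk
      refine ⟨0, ?_⟩
      simpa [← Int.dvd_neg (b := U - 1)] using hU
    obtain ⟨n, hn⟩ := ih U hU
    obtain ⟨q, hq⟩ := hn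
    have hpr : Prime (ℓ : ℤ) := Nat.prime_iff_prime_int.1 hp.out
    have hodd : Odd ℓ := hp.out.odd_of_ne_two hl
    have hgl : ¬ (ℓ : ℤ) ∣ g := by
      intro h
      have h1 := dvd_sub h hg
      rw [sub_sub_cancel] at h1
      exact hpr.not_isUnit (isUnit_of_dvd_one h1)
    have he : emultiplicity (ℓ : ℤ) (g ^ (ℓ ^ (k - 1)) - 1) = k := by
      have h1 := Int.emultiplicity_pow_sub_pow hp.out hodd (x := g) (y := 1) hg hgl (ℓ ^ (k - 1))
      rw [one_pow] at h1
      rw [h1]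
      have h2 : emultiplicity (ℓ : ℤ) (g - 1) = 1 := by
        have := emultiplicity_eq_coe (a := (ℓ : ℤ)) (b := g - 1) (n := 1)
        rw [Nat.cast_one] at this
        exact this.2 ⟨by simpa using hg, by simpa using hg2⟩
      have h3 : emultiplicity ℓ (ℓ ^ (k - 1)) = ((k - 1 : ℕ) : ℕ∞) :=
        Nat.Prime.emultiplicity_pow_self hp.out
      rw [h2, h3]
      have : k = 1 + (k - 1) := by omega
      conv_rhs => rw [this]
      push_cast
      rfl
    obtain ⟨h1, h2⟩ := emultiplicity_eq_coe.1 he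
    obtain ⟨s, hs⟩ := h1
    have hsl : ¬ (ℓ : ℤ) ∣ s := by
      rintro ⟨s', hs'⟩
      exact h2 ⟨s', by rw [hs, hs', pow_succ]; ring⟩
    -- choose `t` with `t s = - q` modulo `ℓ`
    have hcop : IsCoprime (ℓ : ℤ) s := (Prime.coprime_iff_not_dvd hpr).2 hsl
    obtain ⟨x, y, hxy⟩ := hcop
    -- `y s = 1` modulo `ℓ`
    set t : ℕ := ((-q * y) % (ℓ : ℤ)).toNat with ht
    have ht1 : ((t : ℕ) : ℤ) = (-q * y) % (ℓ : ℤ) := by
      rw [ht, Int.toNat_of_nonneg]
      exact Int.emod_nonneg _ (by exact_mod_cast hp.out.ne_zero)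
    have ht2 : (ℓ : ℤ) ∣ q + t * s := by
      have h3 : (ℓ : ℤ) ∣ (-q * y) - t := by
        rw [ht1]
        exact Int.dvd_self_sub_emod
      have h4 : q + t * s = q * x * ℓ - ((-q * y) - t) * s := by
        have : q = q * (x * ℓ + y * s) := by rw [hxy, mul_one]
        linear_combination this
      rw [h4]
      exact dvd_sub (Dvd.intro_left _ rfl) (h3.mul_right _)
    refine ⟨n + ℓ ^ (k - 1) * t, ?_⟩
    obtain ⟨c, hc⟩ := pow_one_add ((ℓ : ℤ) ^ k * s) t
    have h5 : g ^ (ℓ ^ (k - 1)) = 1 + (ℓ : ℤ) ^ k * s := by rw [← hs]; ring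
    have h6 : (ℓ : ℤ) ∣ g ^ n - 1 := by
      have h7 := sub_dvd_pow_sub_pow g 1 n
      rw [one_pow] at h7
      exact hg.trans h7
    obtain ⟨w, hw⟩ := h6
    obtain ⟨z, hz⟩ := ht2
    obtain ⟨k', rfl⟩ : ∃ k', k = k' + 1 := ⟨k - 1, by omega⟩
    have h12 : g ^ (n + ℓ ^ (k' + 1 - 1) * t) = g ^ n * (1 + t * ((ℓ : ℤ) ^ (k' + 1) * s) +
        ((ℓ : ℤ) ^ (k' + 1) * s) ^ 2 * c) := by
      rw [pow_add g, pow_mul g, h5, hc]
    rw [h12]
    have h8 : g ^ n = U + (ℓ : ℤ) ^ (k' + 1) * q := by rw [← hq]; ring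
    refine ⟨z + w * t * s + g ^ n * (ℓ : ℤ) ^ k' * s ^ 2 * c, ?_⟩
    have h9 : g ^ n = 1 + ℓ * w := by rw [← hw]; ring
    have h10 : g ^ n * (1 + t * ((ℓ : ℤ) ^ (k' + 1) * s) + ((ℓ : ℤ) ^ (k' + 1) * s) ^ 2 * c) - U =
        (g ^ n - U) + g ^ n * t * ((ℓ : ℤ) ^ (k' + 1) * s) +
        g ^ n * ((ℓ : ℤ) ^ (k' + 1) * s) ^ 2 * c := by ring
    rw [h10, hq]
    have h11 : (ℓ : ℤ) ^ (k' + 1) * q + g ^ n * t * ((ℓ : ℤ) ^ (k' + 1) * s) =
        (ℓ : ℤ) ^ (k' + 1) * (q + t * s) + (g ^ n - 1) * t * ((ℓ : ℤ) ^ (k' + 1) * s) := by ring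
    rw [h11, hz, hw]
    ring

/-! ## the group -/

section grp

variable {V₀ : Type} [CommGroup V₀] (E₀ : Subgroup (MulAut V₀)) (p : ℕ) (a : Subgroup V₀ → ℕ)

/-- the index set: `(λ, i)` with `λ ≠ 1`, `i < a (ker λ)` -/
abbrev JJ : Type := {x : (V₀ →* (ZMod p)ˣ) × ℕ // x.1 ≠ 1 ∧ x.2 < a x.1.ker}

variable {E₀ p a}

/-- `(λ, i) ↦ (λ ∘ φ, i)` -/
def sg (ha : ∀ (W : Subgroup V₀), ∀ φ ∈ E₀, a (W.map (φ : V₀ ≃* V₀).toMonoidHom) = a W)
    (φ : E₀) (j : JJ p a) : JJ p a :=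
  ⟨(j.1.1.comp ((φ : MulAut V₀) : V₀ ≃* V₀).toMonoidHom, j.1.2), by
    have h1 : (j.1.1.comp ((φ : MulAut V₀) : V₀ ≃* V₀).toMonoidHom).ker.map
        ((φ : MulAut V₀) : V₀ ≃* V₀).toMonoidHom = j.1.1.ker := by
      ext x
      simp only [Subgroup.mem_map, MonoidHom.mem_ker, MonoidHom.comp_apply]
      constructor
      · rintro ⟨y, hy, rfl⟩
        exact hy
      · intro hx
        exact ⟨((φ : MulAut V₀) : V₀ ≃* V₀).symm x, by simpa using hx, by simp⟩
    refine ⟨?_, ?_⟩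
    · intro h
      apply j.2.1
      ext x
      have := DFunLike.congr_fun h (((φ : MulAut V₀) : V₀ ≃* V₀).symm x)
      simpa using this
    · have h2 := j.2.2
      rw [← h1, ha _ _ φ.2] at h2
      exact h2⟩

variable (ha : ∀ (W : Subgroup V₀), ∀ φ ∈ E₀, a (W.map (φ : V₀ ≃* V₀).toMonoidHom) = a W)

theorem sg_one (j : JJ p a) : sg ha (1 : E₀) j = j := by
  apply Subtype.ext
  apply Prod.ext
  · ext x
    rfl
  · rfl

theorem sg_mul (φ ψ : E₀) (j : JJ p a) : sg ha (φ * ψ) j = sg ha ψ (sg ha φ j) := by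
  apply Subtype.ext
  apply Prod.ext
  · ext x
    rfl
  · rfl

/-- the action on the functions -/
@[reducible] def act : MulDistribMulAction (V₀ ⋊[E₀.subtype] E₀) (Multiplicative (JJ p a → ZMod p)) where
  smul x f := Multiplicative.ofAdd
    (fun j => (j.1.1 x.left : ZMod p) * Multiplicative.toAdd f (sg ha x.right j))
  one_smul f := by
    change Multiplicative.ofAdd (fun j : JJ p a => (j.1.1 (1 : V₀) : ZMod p) *
      Multiplicative.toAdd f (sg ha (1 : E₀) j)) = f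
    simp only [sg_one, map_one, Units.val_one, one_mul]
    rfl
  mul_smul x y f := by
    change Multiplicative.ofAdd (fun j : JJ p a => (j.1.1 (x.left * (E₀.subtype x.right) y.left) : ZMod p) *
      Multiplicative.toAdd f (sg ha (x.right * y.right) j)) = Multiplicative.ofAdd (fun j : JJ p a =>
        (j.1.1 x.left : ZMod p) * (((sg ha x.right j).1.1 y.left : ZMod p) *
        Multiplicative.toAdd f (sg ha y.right (sg ha x.right j))))
    congr 1
    funext j
    rw [sg_mul, map_mul, Units.val_mul, mul_assoc]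
    rfl
  smul_mul x f g := by
    change Multiplicative.ofAdd (fun j : JJ p a => (j.1.1 x.left : ZMod p) *
      (Multiplicative.toAdd f (sg ha x.right j) + Multiplicative.toAdd g (sg ha x.right j))) =
      Multiplicative.ofAdd ((fun j : JJ p a => (j.1.1 x.left : ZMod p) *
        Multiplicative.toAdd f (sg ha x.right j)) + (fun j : JJ p a => (j.1.1 x.left : ZMod p) *
        Multiplicative.toAdd g (sg ha x.right j)))
    congr 1
    funext j
    exact mul_add _ _ _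
  smul_one x := by
    change Multiplicative.ofAdd (fun j : JJ p a => (j.1.1 x.left : ZMod p) * 0) = 1
    simp only [mul_zero]
    rfl

/-- the action as a homomorphism -/
def th : V₀ ⋊[E₀.subtype] E₀ →* MulAut (Multiplicative (JJ p a → ZMod p)) :=
  @MulDistribMulAction.toMulAut _ _ _ _ (act ha)

theorem th_apply (x : V₀ ⋊[E₀.subtype] E₀) (f : Multiplicative (JJ p a → ZMod p)) (j : JJ p a) :
    Multiplicative.toAdd (th ha x f) j =
      (j.1.1 x.left : ZMod p) * Multiplicative.toAdd f (sg ha x.right j) := rfl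

/-- the comparison group -/
abbrev GC : Type := Multiplicative (JJ p a → ZMod p) ⋊[th ha] (V₀ ⋊[E₀.subtype] E₀)

theorem finJ [Finite V₀] [Fact p.Prime] : Finite (JJ p a) := by
  have h1 : Finite (V₀ →* (ZMod p)ˣ) := Finite.of_injective (fun f : V₀ →* (ZMod p)ˣ => (f : V₀ → (ZMod p)ˣ))
    DFunLike.coe_injective
  let F : JJ p a → Σ x : V₀ →* (ZMod p)ˣ, Fin (a x.ker) := fun j => ⟨j.1.1, ⟨j.1.2, j.2.2⟩⟩
  refine Finite.of_injective F ?_
  rintro ⟨⟨x, i⟩, hx⟩ ⟨⟨y, j⟩, hy⟩ h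
  simp only [F, Sigma.mk.injEq] at h
  obtain ⟨h2, h3⟩ := h
  subst h2
  simp only [heq_eq_eq, Fin.mk.injEq] at h3
  subst h3
  rfl

theorem finG [Finite V₀] [Fact p.Prime] : Finite (GC (p := p) ha) := by
  have := finJ (p := p) (a := a)
  have h2 : Finite (JJ p a → ZMod p) := inferInstance
  have h3 : Finite (Multiplicative (JJ p a → ZMod p)) := h2
  have h4 : Finite (MulAut V₀) := Finite.of_injective (fun f : MulAut V₀ => (f : V₀ → V₀))
    DFunLike.coe_injective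
  have h5 : Finite (V₀ ⋊[E₀.subtype] E₀) := Finite.of_injective (fun x => (x.left, x.right))
    (fun x y h => SemidirectProduct.ext (Prod.ext_iff.1 h).1 (Prod.ext_iff.1 h).2)
  exact Finite.of_injective (fun x => (x.left, x.right))
    (fun x y h => SemidirectProduct.ext (Prod.ext_iff.1 h).1 (Prod.ext_iff.1 h).2)

/-- the inclusion of `V₀` -/
def io : V₀ →* GC ha (p := p) := SemidirectProduct.inr.comp SemidirectProduct.inl

/-- the inclusion of `E₀` -/
def ep : E₀ →* GC ha (p := p) := SemidirectProduct.inr.comp SemidirectProduct.inr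

/-- the projection -/
def pr : GC ha (p := p) →* V₀ ⋊[E₀.subtype] E₀ := SemidirectProduct.rightHom

theorem conj_inl (v : V₀) (f : Multiplicative (JJ p a → ZMod p)) :
    io ha v * SemidirectProduct.inl f * (io ha v)⁻¹ =
      SemidirectProduct.inl (th ha (SemidirectProduct.inl v) f) := by
  rw [SemidirectProduct.inl_aut, ← map_inv]
  rfl

theorem mem_ker_iff (x : GC ha (p := p)) : x ∈ (pr ha).ker ↔ ∃ f, x = SemidirectProduct.inl f := by
  rw [MonoidHom.mem_ker]
  constructor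
  · intro h
    exact ⟨x.left, SemidirectProduct.ext rfl h⟩
  · rintro ⟨f, rfl⟩
    rfl

theorem comm_iff (v : V₀) (f : Multiplicative (JJ p a → ZMod p)) :
    io ha v * SemidirectProduct.inl f = SemidirectProduct.inl f * io ha v ↔
      ∀ j : JJ p a, (j.1.1 v : ZMod p) * Multiplicative.toAdd f j = Multiplicative.toAdd f j := by
  rw [← mul_inv_eq_iff_eq_mul, conj_inl, SemidirectProduct.inl_inj]
  constructor
  · intro h j
    have := congrArg (fun g : Multiplicative (JJ p a → ZMod p) => Multiplicative.toAdd g j) h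
    rw [th_apply] at this
    simpa [sg_one] using this
  · intro h
    apply Multiplicative.toAdd.injective
    funext j
    rw [th_apply]
    simpa [sg_one] using h j

/-- the fixed points of `W` in the kernel -/
theorem card_fix [Finite V₀] [Fact p.Prime] (W : Subgroup V₀) :
    Nat.card ((pr (p := p) ha).ker ⊓ Subgroup.centralizer ((W.map (io (p := p) ha) : Subgroup (GC (p := p) ha)) :
        Set (GC (p := p) ha)) :
      Subgroup (GC (p := p) ha)) = p ^ Nat.card {j : JJ p a // W ≤ j.1.1.ker} := by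
  classical
  have hJ := finJ (V₀ := V₀) (p := p) (a := a)
  have hmem : ∀ f : Multiplicative (JJ p a → ZMod p),
      (SemidirectProduct.inl f : GC (p := p) ha) ∈ (pr (p := p) ha).ker ⊓
        Subgroup.centralizer ((W.map (io (p := p) ha) : Subgroup (GC (p := p) ha)) :
        Set (GC (p := p) ha)) ↔
      ∀ j : JJ p a, ¬ W ≤ j.1.1.ker → Multiplicative.toAdd f j = 0 := by
    intro f
    rw [Subgroup.mem_inf, and_iff_right ((mem_ker_iff ha _).2 ⟨f, rfl⟩), Subgroup.mem_centralizer_iff]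
    constructor
    · intro h j hj
      obtain ⟨v, hv, hv'⟩ := Set.not_subset.1 hj
      have h1 := (comm_iff ha v f).1 (h _ (Subgroup.mem_map_of_mem _ hv)) j
      have h2 : ((j.1.1 v : ZMod p) - 1) * Multiplicative.toAdd f j = 0 := by
        rw [sub_mul, one_mul, h1, sub_self]
      rcases mul_eq_zero.1 h2 with h3 | h3
      · exact absurd (MonoidHom.mem_ker.2 (Units.ext (sub_eq_zero.1 h3))) hv'
      · exact h3
    · rintro h _ ⟨v, hv, rfl⟩
      refine (comm_iff ha v f).2 fun j => ?_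
      by_cases hj : W ≤ j.1.1.ker
      · rw [MonoidHom.mem_ker.1 (hj hv), Units.val_one, one_mul]
      · rw [h j hj, mul_zero]
  let F : ({j : JJ p a // W ≤ j.1.1.ker} → ZMod p) → ((pr (p := p) ha).ker ⊓
      Subgroup.centralizer ((W.map (io (p := p) ha) : Subgroup (GC (p := p) ha))         : Set (GC (p := p) ha)) : Subgroup (GC (p := p) ha)) := fun g =>
    ⟨SemidirectProduct.inl (Multiplicative.ofAdd (fun j => if h : W ≤ j.1.1.ker then g ⟨j, h⟩ else 0)),
      (hmem _).2 fun j hj => dif_neg hj⟩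
  have hF : Function.Bijective F := by
    constructor
    · intro g g' h
      have h1 := SemidirectProduct.inl_injective (congrArg Subtype.val h)
      funext j
      have h2 := congrFun (Multiplicative.ofAdd.injective h1) j.1
      simpa [j.2] using h2
    · rintro ⟨x, hx⟩
      obtain ⟨f, rfl⟩ := (mem_ker_iff ha x).1 hx.1
      refine ⟨fun j => Multiplicative.toAdd f j.1, ?_⟩
      apply Subtype.ext
      change SemidirectProduct.inl _ = SemidirectProduct.inl _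
      congr 1
      apply Multiplicative.toAdd.injective
      funext j
      by_cases hj : W ≤ j.1.1.ker
      · exact dif_pos hj
      · exact (dif_neg hj).trans ((hmem f).1 hx j hj).symm
  rw [← Nat.card_congr (Equiv.ofBijective F hF), Nat.card_fun, Nat.card_zmod]

end grp

/-- `ℤ/p` has the `ℓ`-th roots of unity -/
theorem enough (ℓ p : ℕ) [hl : Fact ℓ.Prime] [hp : Fact p.Prime] (h : ℓ ∣ p - 1) :
    HasEnoughRootsOfUnity (ZMod p) ℓ := by
  have hn : NeZero ℓ := ⟨hl.out.ne_zero⟩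
  obtain ⟨g, hg⟩ := IsCyclic.exists_generator (α := (ZMod p)ˣ)
  have h1 : orderOf g = p - 1 := by
    rw [orderOf_eq_card_of_forall_mem_zpowers hg, Nat.card_eq_fintype_card, ZMod.card_units]
  obtain ⟨m, hm⟩ := h
  have h2 : IsPrimitiveRoot g (p - 1) := by
    rw [← h1]
    exact IsPrimitiveRoot.orderOf g
  have h3 : IsPrimitiveRoot (g ^ m) ℓ := h2.pow (by
    have := hp.out.two_le
    omega) (by rw [hm, mul_comm])
  exact ⟨⟨((g ^ m : (ZMod p)ˣ) : ZMod p), IsPrimitiveRoot.coe_units_iff.2 h3⟩,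
    rootsOfUnity.isCyclic _ _⟩

/-- the number of the `λ ≠ 1` which are trivial on `W` -/
theorem card_lam (ℓ p : ℕ) [hl : Fact ℓ.Prime] [hp : Fact p.Prime] (h : ℓ ∣ p - 1)
    (V₀ : Type) [CommGroup V₀] [Finite V₀] (hV : ∀ v : V₀, v ^ ℓ = 1) (W : Subgroup V₀) :
    Nat.card {x : V₀ →* (ZMod p)ˣ // x ≠ 1 ∧ W ≤ x.ker} = Nat.card (V₀ ⧸ W) - 1 := by
  classical
  have hn : NeZero ℓ := ⟨hl.out.ne_zero⟩
  have hE := enough ℓ p h
  have hX : HasEnoughRootsOfUnity (ZMod p) (Monoid.exponent V₀) :=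
    HasEnoughRootsOfUnity.of_dvd (n := ℓ) (ZMod p) (Monoid.exponent_dvd_of_forall_pow_eq_one hV)
  have h1 : Finite (V₀ →* (ZMod p)ˣ) := Finite.of_injective (fun f : V₀ →* (ZMod p)ˣ => (f : V₀ → (ZMod p)ˣ))
    DFunLike.coe_injective
  rw [← CommGroup.card_domRestrictHom_ker (ZMod p) W]
  have h2 : ∀ x : V₀ →* (ZMod p)ˣ, x ∈ (MonoidHom.domRestrictHom W (ZMod p)ˣ).ker ↔ W ≤ x.ker := by
    intro x
    rw [MonoidHom.mem_ker]
    constructor
    · intro h v hv
      exact DFunLike.congr_fun h ⟨v, hv⟩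
    · intro h
      ext v
      have := h v.2
      rw [MonoidHom.mem_ker] at this
      exact congrArg Units.val this
  have h3 : Nat.card {x : V₀ →* (ZMod p)ˣ // x ≠ 1 ∧ W ≤ x.ker} =
      (((MonoidHom.domRestrictHom W (ZMod p)ˣ).ker : Set (V₀ →* (ZMod p)ˣ)) \ {1}).ncard := by
    rw [← Nat.card_coe_set_eq]
    apply Nat.card_congr
    apply Equiv.subtypeEquivRight
    intro x
    rw [Set.mem_sdiff, SetLike.mem_coe, h2, Set.mem_singleton_iff, and_comm]
  rw [h3, Set.ncard_sdiff_singleton_of_mem (one_mem _), ← Nat.card_coe_set_eq]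
  rfl

theorem card_J (ℓ p : ℕ) [hl : Fact ℓ.Prime] [hp : Fact p.Prime] (h : ℓ ∣ p - 1)
    (V₀ : Type) [CommGroup V₀] [Finite V₀] (hV : ∀ v : V₀, v ^ ℓ = 1) (hc : Nat.card V₀ = ℓ ^ 2)
    (a : Subgroup V₀ → ℕ) (W : Subgroup V₀) (hW : W ≠ ⊥) (hW' : W ≠ ⊤) :
    Nat.card {j : JJ p a // W ≤ j.1.1.ker} = (ℓ - 1) * a W := by
  classical
  have hord : ∀ Y : Subgroup V₀, Y ≠ ⊥ → Y ≠ ⊤ → Nat.card Y = ℓ := by
    intro Y hY hY'
    have h1 : Nat.card Y ∣ ℓ ^ 2 := hc ▸ Y.card_subgroup_dvd_card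
    obtain ⟨i, hi, hi'⟩ := (Nat.dvd_prime_pow hl.out).1 h1
    have h2 : i ≠ 0 := by
      rintro rfl
      exact hY (Subgroup.card_eq_one.1 (by simpa using hi'))
    have h3 : i ≠ 2 := by
      rintro rfl
      exact hY' (Subgroup.eq_top_of_card_eq Y (hi'.trans hc.symm))
    have h4 : i = 1 := by omega
    rw [hi', h4, pow_one]
  have h0 : ∀ x : V₀ →* (ZMod p)ˣ, x ≠ 1 → W ≤ x.ker → x.ker = W := by
    intro x hx hx'
    have h2 : x.ker ≠ ⊤ := fun h => hx (MonoidHom.ker_eq_top_iff.1 h)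
    have h3 : x.ker ≠ ⊥ := fun h => hW (le_bot_iff.1 (h ▸ hx'))
    refine (Subgroup.eq_of_le_of_card_ge hx' ?_).symm
    rw [hord _ h3 h2, hord _ hW hW']
  have hcW : Nat.card (V₀ ⧸ W) = ℓ := by
    have h1 := W.card_eq_card_quotient_mul_card_subgroup
    rw [hc, hord W hW hW', pow_two] at h1
    exact (Nat.eq_of_mul_eq_mul_right hl.out.pos h1).symm
  have h1 := card_lam ℓ p h V₀ hV W
  rw [hcW] at h1
  rw [← h1]
  conv_rhs => rw [← Nat.card_fin (a W)]
  rw [← Nat.card_prod]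
  refine Nat.card_congr (Equiv.ofBijective (fun j => (⟨j.1.1.1, j.1.2.1, j.2⟩,
    ⟨j.1.1.2, lt_of_lt_of_eq j.1.2.2 (congrArg a (h0 j.1.1.1 j.1.2.1 j.2))⟩)) ⟨?_, ?_⟩)
  · intro j j' h
    simp only [Prod.mk.injEq, Subtype.mk.injEq, Fin.mk.injEq] at h
    exact Subtype.ext (Subtype.ext (Prod.ext h.1 h.2))
  · rintro ⟨⟨x, hx, hx'⟩, i⟩
    exact ⟨⟨⟨(x, i), hx, by rw [h0 x hx hx']; exact i.2⟩, hx'⟩, rfl⟩

/-- Row CMG. -/
theorem cmg : CmgStmt := by
  intro ℓ hl hl2 V₀ _ _ hV hc E₀ k U hU hUE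
  -- the prime `p`
  have hlp : IsCoprime ((1 + ℓ : ℕ) : ℤ) (ℓ ^ 2 : ℕ) := by
    rw [Nat.isCoprime_iff_coprime]
    apply Nat.Coprime.pow_right
    simp
  obtain ⟨p, hp0, hpp, hpm⟩ := Nat.forall_exists_prime_gt_and_zmodEq ℓ
    (pow_ne_zero 2 hl.out.ne_zero) hlp
  have hpF : Fact p.Prime := ⟨hpp⟩
  have hl1 : 1 < ℓ := hl.out.one_lt
  have hd2 : ((ℓ : ℤ)) ^ 2 ∣ (p : ℤ) - (1 + ℓ) := by
    have := Int.modEq_iff_dvd.1 hpm.symm
    push_cast at this ⊢
    exact this
  have hd1 : (ℓ : ℤ) ∣ (p : ℤ) - 1 := by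
    have h1 : (ℓ : ℤ) ∣ (p : ℤ) - (1 + ℓ) := (Dvd.intro _ (by ring : (ℓ : ℤ) * ℓ = (ℓ : ℤ) ^ 2)).trans hd2
    have h2 := dvd_add h1 (dvd_refl (ℓ : ℤ))
    have h3 : (p : ℤ) - (1 + ℓ) + ℓ = p - 1 := by ring
    rwa [h3] at h2
  have hdn : ℓ ∣ p - 1 := by
    have : ((p - 1 : ℕ) : ℤ) = (p : ℤ) - 1 := by
      rw [Nat.cast_sub hpp.one_lt.le, Nat.cast_one]
    exact Int.natCast_dvd_natCast.1 (this ▸ hd1)
  -- `g = p ^ (ℓ - 1)`
  have hg1 : (ℓ : ℤ) ∣ (p : ℤ) ^ (ℓ - 1) - 1 := by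
    have := sub_dvd_pow_sub_pow (p : ℤ) 1 (ℓ - 1)
    rw [one_pow] at this
    exact hd1.trans this
  have hg2 : ¬ (ℓ : ℤ) ^ 2 ∣ (p : ℤ) ^ (ℓ - 1) - 1 := by
    intro h
    have h1 : (ℓ : ℤ) ^ 2 ∣ (p : ℤ) ^ (ℓ - 1) - (1 + ℓ) ^ (ℓ - 1) :=
      hd2.trans (sub_dvd_pow_sub_pow _ _ _)
    obtain ⟨c, hc'⟩ := pow_one_add (ℓ : ℤ) (ℓ - 1)
    have h2 := dvd_sub h h1
    have h3 : (p : ℤ) ^ (ℓ - 1) - 1 - ((p : ℤ) ^ (ℓ - 1) - (1 + ℓ) ^ (ℓ - 1)) =
        ((ℓ - 1 : ℕ) : ℤ) * ℓ + (ℓ : ℤ) ^ 2 * c := by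
      rw [hc']
      ring
    rw [h3] at h2
    have h4 : (ℓ : ℤ) ^ 2 ∣ ((ℓ - 1 : ℕ) : ℤ) * ℓ := (dvd_add_left (Dvd.intro _ rfl)).1 h2
    have h5 : (ℓ : ℤ) ∣ ((ℓ - 1 : ℕ) : ℤ) := by
      rw [pow_two] at h4
      exact Int.dvd_of_mul_dvd_mul_right (by exact_mod_cast hl.out.ne_zero) h4
    have h6 := Nat.le_of_dvd (by omega) (Int.natCast_dvd_natCast.1 h5)
    omega
  have hex := exn ℓ hl2 ((p : ℤ) ^ (ℓ - 1)) hg1 hg2 k
  let n : ℤ → ℕ := fun u => if h : (ℓ : ℤ) ∣ u - 1 then (hex u h).choose else 0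
  let a : Subgroup V₀ → ℕ := fun W => n (U W)
  have ha : ∀ (W : Subgroup V₀), ∀ φ ∈ E₀, a (W.map (φ : V₀ ≃* V₀).toMonoidHom) = a W :=
    fun W φ hφ => congrArg n (hUE W φ hφ)
  have haU : ∀ W, (ℓ : ℤ) ^ k ∣ ((p : ℤ) ^ (ℓ - 1)) ^ a W - U W := by
    intro W
    have h1 : a W = (hex (U W) (hU W)).choose := dif_pos (hU W)
    rw [h1]
    exact (hex (U W) (hU W)).choose_spec
  have hJ := finJ (V₀ := V₀) (p := p) (a := a)
  refine ⟨GC (p := p) ha, inferInstance, finG ha, pr ha, io ha, ep ha, ?_, ?_, fun v => rfl,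
    fun φ => rfl, ?_, ?_, ?_⟩
  · exact SemidirectProduct.rightHom_surjective
  · have h1 := card_fix (p := p) ha ⊥
    rw [Subgroup.map_bot, Subgroup.coe_bot] at h1
    have h2 : (pr (p := p) ha).ker ⊓ Subgroup.centralizer ({1} : Set (GC (p := p) ha)) =
        (pr (p := p) ha).ker := by
      rw [inf_eq_left]
      intro x _
      rw [Subgroup.mem_centralizer_iff]
      rintro y rfl
      rw [one_mul, mul_one]
    rw [h2] at h1
    rw [h1]
    intro h3
    have h4 := (Nat.prime_dvd_prime_iff_eq hl.out hpp).1 (hl.out.dvd_of_dvd_pow h3)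
    exact absurd h4 hp0.ne
  · intro φ v
    have h1 : (SemidirectProduct.inr φ * SemidirectProduct.inl v * (SemidirectProduct.inr φ)⁻¹ :
        V₀ ⋊[E₀.subtype] E₀) = SemidirectProduct.inl ((φ : MulAut V₀) v) := by
      rw [← map_inv, ← SemidirectProduct.inl_aut]
      rfl
    change SemidirectProduct.inr (SemidirectProduct.inr φ) * SemidirectProduct.inr
      (SemidirectProduct.inl v) * (SemidirectProduct.inr (SemidirectProduct.inr φ))⁻¹ =
      SemidirectProduct.inr (SemidirectProduct.inl ((φ : MulAut V₀) v))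
    rw [← h1, map_mul, map_mul, map_inv]
  · intro x hx
    rw [Subgroup.mem_centralizer_iff] at hx
    have h1 : ∀ v : V₀, io ha v * x = x * io ha v := fun v => hx _ ⟨v, rfl⟩
    -- the component in `E₀` is trivial
    have h2 : x.right.right = 1 := by
      apply Subtype.ext
      apply MulEquiv.ext
      intro v
      have h3 := congrArg (fun y : GC (p := p) ha => y.right.left) (h1 v)
      change v * (1 : MulAut V₀) x.right.left = x.right.left * (x.right.right : MulAut V₀) v at h3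
      have h4 : v * x.right.left = x.right.left * (x.right.right : MulAut V₀) v := h3
      rw [mul_comm v] at h4
      exact (mul_left_cancel h4).symm
    have h3 : x = SemidirectProduct.inl x.left * io ha x.right.left := by
      apply SemidirectProduct.ext
      · simp [io]
      · apply SemidirectProduct.ext
        · simp [io]
        · simp [io, h2]
    have h4 : ∀ v : V₀, io ha v * SemidirectProduct.inl x.left = SemidirectProduct.inl x.left * io ha v := by
      intro v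
      have h5 := h1 v
      rw [h3] at h5
      have h6 : io ha x.right.left * io ha v = io (p := p) ha v * io ha x.right.left := by
        rw [← map_mul, ← map_mul, mul_comm]
      rw [mul_assoc, h6, ← mul_assoc, ← mul_assoc] at h5
      exact mul_right_cancel h5
    have h5 : x.left = 1 := by
      apply Multiplicative.toAdd.injective
      funext j
      by_contra h6
      apply j.2.1
      ext v
      have h7 := (comm_iff ha v x.left).1 (h4 v) j
      exact mul_right_cancel₀ h6 (h7.trans (one_mul _).symm)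
    rw [h3, h5, map_one, one_mul]
    exact ⟨_, rfl⟩
  · intro W hW hW'
    rw [card_fix, card_J ℓ p hdn V₀ hV hc a W hW hW', pow_mul]
    have := haU W
    push_cast
    exact this

end Pool.Agent.PP.SO.H43
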