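import Pool.Agent.ASO.Stmts8
import Pool.Agent.Helper33_AT6.INM
import Pool.Agent.Helper16_AT6.SMH
import Pool.Agent.Helper81_AT6.CPL
import Pool.Agent.Helper41_AT3.NIL
import Pool.Agent.Helper9_PP.Pbk

/-!
# Squad ASO, row KLN: the number of ordinary and of modular characters for a free inertial quotient
-/

open scoped BigOperators

noncomputable section

namespace Pool.Agent.PP.SO.H43

open Pool.Agent.Helper51_AWC Pool.Agent.Helper79_WRA Pool.Agent.PP Pool.Agent.PP.KF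
open Pool.Agent.PP.K9 Pool.Agent.PP.K9.H97 Pool.Agent.PP.H75 Pool.Agent.PP.T3

attribute [local instance] Ideal.Quotient.field

/-- the values of the functions `s ↦ χ(v s b)` for a block `b` whose characters agree at the regular
elements -/
theorem gv_reg (M : Ideal (integralClosure ℤ ℂ)) [M.IsMaximal] {ℓ : ℕ} {G : Type} [Group G]
    [Finite G] (v : G) (b : G → FF M) {d : ℕ} (hd : Dg M (fun t : Cu v => b t) d)
    {κ₀ : Cu v → ℂ}
    (hκ : ∀ κ ∈ IrrE M (fun t : Cu v => b t), ∀ s : Cu v, Reg ℓ s → κ s = κ₀ s)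
    {χ : G → ℂ} (hχ : χ ∈ Irr G) (s : Cu v) (hs : Reg ℓ s) :
    gv M (Cu v) (v * s) b χ = κ₀ s * (gv M (Cu v) v b χ / d) := by
  classical
  have := Fintype.ofFinite (Cu v)
  have hS : (IrrE M (fun t : Cu v => b t)).Finite := irr_finite'.subset (fun θ h => h.1)
  have hd0 : (d : ℂ) ≠ 0 := by exact_mod_cast hd.1.ne'
  obtain ⟨ix, hix⟩ := T6.H33.gv_exp M G v b (orderOf v) (orderOf_pos v) (pow_orderOf_eq_one v)
    _ (Complex.isPrimitiveRoot_exp _ (orderOf_pos v).ne') hS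
  obtain ⟨mu, hmu⟩ := hix χ hχ
  have h1 := hmu 1 s
  have h2 := hmu 1 1
  rw [pow_one] at h1 h2
  rw [Subgroup.coe_one, mul_one] at h2
  rw [h1, h2]
  have e1 : ∀ θ ∈ hS.toFinset, (mu θ : ℂ) *
      Complex.exp (2 * Real.pi * Complex.I / (orderOf v : ℕ)) ^ (ix θ * 1) * θ s =
      κ₀ s * (((mu θ : ℂ) *
      Complex.exp (2 * Real.pi * Complex.I / (orderOf v : ℕ)) ^ (ix θ * 1) * θ 1) / d) := by
    intro θ hθ
    have h3 := hS.mem_toFinset.1 hθ
    rw [hκ θ h3 s hs, hd.2 θ h3]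
    field_simp
  rw [Finset.sum_congr rfl e1, ← Finset.mul_sum, Finset.sum_div]

theorem kln (loc : T3.LocStmt) (lsb : T3.LsbStmt) (rgl : T3.RglStmt) (rg1 : T8.Rg1Stmt)
    (lfr : T8.LfrStmt) (co1 : T3.Co1Stmt) (smg : T3.SmgStmt) (lrk : T3.LrkStmt)
    (cpl : T6.CplStmt) : KlnStmt := by
  classical
  intro ℓ hℓ M _ hM hl2 G _ _ e V γ hL hV hFr
  have hF : GoodF ℓ (FF M) := H50.fld ℓ Fact.out M hM
  have := Fintype.ofFinite G
  have hfin : (IrrE M e).Finite := K9.H25.irrE_finite M e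
  have hfI : (Irr G).Finite := T3.H41.irrF G
  -- local blocks
  have hb0 : ∀ v : G, ∃ b : G → FF M, v ∈ V → Lc e V γ v b := by
    intro v
    by_cases hv : v ∈ V
    · obtain ⟨⟨b, hb⟩, -⟩ := loc ℓ (FF M) hF G e V γ hL v hv
      exact ⟨b, fun _ => hb⟩
    · exact ⟨0, fun h => absurd h hv⟩
  choose b hb using hb0
  have hcpl := cpl ℓ M hM G e V γ hL b hb
  have hVc : (Nat.card V : ℂ) ≠ 0 := by exact_mod_cast Nat.card_pos.ne'
  -- the sum over the characters of the diagonal entries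
  have h1 : ∑ χ ∈ hfin.toFinset, ∑ᶠ (v : G) (_ : v ∈ V), T6.Mm M ℓ V γ v (b v) χ χ =
      (IrrE M e).ncard * ((Nat.card V : ℂ) * ix V γ) := by
    rw [Finset.sum_congr rfl fun χ hχ => hcpl χ (hfin.mem_toFinset.1 hχ), Finset.sum_const,
      nsmul_eq_mul, ← Set.ncard_eq_toFinset_card _ hfin]
  set S : Finset G := Finset.univ.filter (fun v => v ∈ V) with hS
  have hmS : ∀ v, v ∈ S ↔ v ∈ V := fun v => by simp [hS]
  have hsum : ∀ F : G → ℂ, ∑ᶠ (v : G) (_ : v ∈ V), F v = ∑ v ∈ S, F v := by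
    intro F
    rw [← finsum_mem_coe_finset]
    refine finsum_congr fun c => ?_
    simp [hS]
  have hcS : (S.card : ℂ) = Nat.card V := by
    rw [Nat.card_eq_fintype_card, hS, ← Fintype.card_subtype]
  simp_rw [hsum] at h1
  rw [Finset.sum_comm] at h1
  -- the element `1`
  have hv1 : ∑ χ ∈ hfin.toFinset, T6.Mm M ℓ V γ 1 (b 1) χ χ =
      (Nat.card V : ℂ) * ix V γ * ln e := by
    have htop : Cu (1 : G) = ⊤ := by
      rw [eq_top_iff]
      intro x _
      rw [Subgroup.mem_centralizer_singleton_iff]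
      simp
    obtain ⟨φ, hφ⟩ : ∃ φ : Cu (1 : G) ≃* G, ∀ t : Cu (1 : G), φ t = (t : G) :=
      ⟨(MulEquiv.subgroupCongr htop).trans Subgroup.topEquiv, fun t => rfl⟩
    have hsupp : ∀ x, x ∉ Cu (1 : G) → e x = 0 := by
      intro x hx
      exact absurd (htop ▸ Subgroup.mem_top x) hx
    have hblk : IsBlk (fun t : Cu (1 : G) => e t) := by
      have h1 := H9.blk_tr φ hL.blk
      have h2 : (fun x : Cu (1 : G) => e (φ x)) = fun t : Cu (1 : G) => e t := by
        funext x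
        rw [hφ]
      rw [h2] at h1
      exact h1
    have hLe : Lc e V γ 1 e := ⟨⟨hsupp, hblk⟩, hblk.1.2, hL.und⟩
    have hbe : b 1 = e := (loc ℓ (FF M) hF G e V γ hL 1 V.one_mem).2 _ _ (hb 1 V.one_mem) hLe
    have hcard : Nat.card (Cu (1 : G)) = Nat.card G := Nat.card_congr φ.toEquiv
    have hgv : ∀ κ ∈ IrrE M e, ∀ s : G, gv M (Cu (1 : G)) (1 * s) (b 1) κ = κ s := by
      intro κ hκ s
      rw [hbe, one_mul, T6.H16.gv_one e hL.blk.1.1]
      exact (T6.H16.fv_eh e hκ.1 s).1 hκ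
    have hrel : (Subgroup.centralizer (V : Set G)).relIndex (Tg V γ ⊓ Cu 1) = ix V γ := by
      rw [htop, inf_top_eq]
      rfl
    rw [lrk ℓ M hM G e hL.blk.1]
    have e1 : ∀ χ ∈ hfin.toFinset, T6.Mm M ℓ V γ 1 (b 1) χ χ =
        (Nat.card V : ℂ) * ix V γ * ((Nat.card G : ℂ)⁻¹ *
          ∑ s ∈ Finset.univ.filter (fun s : G => Reg ℓ s), χ s * starRingEnd ℂ (χ s)) := by
      intro χ hχ
      have hχ' := hfin.mem_toFinset.1 hχ
      unfold T6.Mm T6.Pm
      rw [hrel, hcard, ← T5.H92.finsum_reg']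
      congr 2
      refine finsum_congr fun s => ?_
      rw [hgv χ hχ']
      have h3 : (s ∈ Cu (1 : G) ∧ Reg ℓ s) = Reg ℓ s := by
        rw [htop]
        simp
      rw [h3]
    rw [Finset.sum_congr rfl e1, ← Finset.mul_sum, ← Finset.mul_sum, Finset.sum_comm,
      T5.H92.finsum_reg']
    congr 2
    refine Finset.sum_congr rfl fun s _ => ?_
    rw [finsum_mem_eq_finite_toFinset_sum _ hfin]
  -- the other elements
  have hv2 : ∀ v ∈ S.erase 1, ∑ χ ∈ hfin.toFinset, T6.Mm M ℓ V γ v (b v) χ χ =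
      (Nat.card V : ℂ) := by
    intro v hv
    rw [Finset.mem_erase, hmS] at hv
    obtain ⟨hv1', hvV⟩ := hv
    have hcle : Tg V γ ⊓ Cu v ≤ Subgroup.centralizer (V : Set G) := by
      intro t ht
      exact hFr t ht.1 v hvV hv1' (Subgroup.mem_centralizer_singleton_iff.1 ht.2)
    have hRg : Rg V γ v := ⟨hvV, hv1', hcle⟩
    obtain ⟨b', d, hb', hd, hN, hix⟩ := rgl ℓ M hM G e V γ hL v hRg
    have hbb : b v = b' := (loc ℓ (FF M) hF G e V γ hL v hvV).2 _ _ (hb v hvV) hb'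
    rw [← hbb] at hb' hd hN
    obtain ⟨hLC, -, hVc', -⟩ := lsb ℓ M hM G e V γ hL v hvV (b v) hb'
    have := Fintype.ofFinite (Cu v)
    have hel : El ℓ v := by
      obtain ⟨k, hk⟩ := hL.tp.pg ⟨v, hvV⟩
      exact ⟨k, by simpa using congrArg Subtype.val hk⟩
    -- the number of modular characters of the local block
    have hln : ln (fun t : Cu v => b v t) = 1 := by
      apply le_antisymm
      · rw [← hix]
        refine lfr ℓ M hM hl2 (Cu v) _ _ _ hLC ?_ ?_
        · intro h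
          rw [h, Subgroup.card_bot] at hVc'
          exact hV (Subgroup.card_eq_one.1 hVc'.symm)
        · intro t ht w hw _ _
          exact Subgroup.relIndex_eq_one.1 hix ht
      · exact (H3.lbd ℓ M hM (Cu v) _ hLC.blk.1 hLC.blk.2.1).1
    obtain ⟨κ₀, hκ₀⟩ := T3.H41.irrE_ne M hM hLC.blk
    have hκ : ∀ κ ∈ IrrE M (fun t : Cu v => b v t), ∀ s : Cu v, Reg ℓ s → κ s = κ₀ s :=
      fun κ hκ s hs => rg1 ℓ M hM (Cu v) _ _ _ hLC hix κ hκ κ₀ hκ₀ s hs
    have hfb : (IrrE M (fun t : Cu v => b v t)).Finite := irr_finite'.subset (fun θ h => h.1)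
    set q : ℂ := (Nat.card (Cu v) : ℂ)⁻¹ *
      ∑ s ∈ Finset.univ.filter (fun s : Cu v => Reg ℓ s), κ₀ s * starRingEnd ℂ (κ₀ s) with hq
    have hqV : (Nat.card V : ℂ) * q = 1 := by
      have e1 := lrk ℓ M hM (Cu v) _ hLC.blk.1
      rw [hln, Nat.cast_one, T5.H92.finsum_reg'] at e1
      rw [e1, hq, mul_left_comm, Finset.mul_sum]
      congr 1
      refine Finset.sum_congr rfl fun s hs => ?_
      have hs' : Reg ℓ s := (Finset.mem_filter.1 hs).2
      rw [finsum_mem_eq_finite_toFinset_sum _ hfb]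
      rw [Finset.sum_congr rfl (g := fun _ => κ₀ s * starRingEnd ℂ (κ₀ s)) (fun κ hk => by
        rw [hκ κ (hfb.mem_toFinset.1 hk) s hs']), Finset.sum_const, nsmul_eq_mul,
        ← Set.ncard_eq_toFinset_card _ hfb, hN]
    have hPm : ∀ χ ∈ hfin.toFinset, T6.Mm M ℓ V γ v (b v) χ χ = (Nat.card V : ℂ) * q *
        (Complex.normSq (gv M (Cu v) v (b v) χ / d) : ℂ) := by
      intro χ hχ
      have hχ' := hfin.mem_toFinset.1 hχ
      unfold T6.Mm T6.Pm
      have e0 : (Subgroup.centralizer (V : Set G)).relIndex (Tg V γ ⊓ Cu v) = 1 :=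
        Subgroup.relIndex_eq_one.2 hcle
      rw [e0, T5.H92.finsum_reg, Nat.cast_one, mul_one, mul_assoc, hq, mul_assoc, Finset.sum_mul]
      congr 2
      refine Finset.sum_congr rfl fun s hs => ?_
      have hs' : Reg ℓ s := (Finset.mem_filter.1 hs).2
      rw [gv_reg M v (b v) hd hκ hχ'.1 s hs', map_mul, ← Complex.mul_conj]
      ring
    rw [Finset.sum_congr rfl hPm, ← Finset.mul_sum, hqV, one_mul]
    have hsg := T3.H41.sum_gv M co1 hM hel hb'.blk.ix hd hN
    have hsub : hfin.toFinset ⊆ hfI.toFinset := by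
      intro χ hχ
      rw [Set.Finite.mem_toFinset] at hχ ⊢
      exact hχ.1
    have hout : ∀ χ ∈ hfI.toFinset, χ ∉ hfin.toFinset →
        (Complex.normSq (gv M (Cu v) v (b v) χ / d) : ℂ) = 0 := by
      intro χ h1 h2
      rw [Set.Finite.mem_toFinset] at h1 h2
      have h4 := (smg ℓ M hM G v 1 hv1' hel (Cu v).one_mem K9.H25.reg_one
        (fun t : Cu v => b v t) hb'.blk.ix.idem e hL.blk.1).1 hb'.und χ h1 h2
      rw [mul_one] at h4
      have h5 : gv M (Cu v) v (b v) χ = 0 := h4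
      rw [h5, zero_div, map_zero, Complex.ofReal_zero]
    rw [Finset.sum_subset hsub hout]
    exact_mod_cast hsg
  rw [← Finset.add_sum_erase S _ ((hmS 1).2 V.one_mem), hv1, Finset.sum_congr rfl hv2,
    Finset.sum_const, nsmul_eq_mul, Finset.card_erase_of_mem ((hmS 1).2 V.one_mem)] at h1
  have hpos : 1 ≤ Nat.card V := Nat.card_pos
  have hcS' : S.card = Nat.card V := by exact_mod_cast hcS
  rw [hcS'] at h1
  have h2 : (Nat.card V : ℂ) * ((IrrE M e).ncard * ix V γ) =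
      (Nat.card V : ℂ) * (ln e * ix V γ + (Nat.card V - 1 : ℕ)) := by
    linear_combination -h1
  have h3 := mul_left_cancel₀ hVc h2
  exact_mod_cast h3

end Pool.Agent.PP.SO.H43
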