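import Pool.Agent.ASO.Stmts8
import Pool.Agent.ASO.Stmts3
import Pool.Agent.Helper85_AT3.LSB
import Pool.Agent.Helper41_AT3.NIL

/-!
# Squad ASO, row S2A: the theorem for block idempotents
-/

open scoped BigOperators

noncomputable section

namespace Pool.Agent.PP.SO.H43

open Pool.Agent.Helper51_AWC Pool.Agent.Helper79_WRA Pool.Agent.PP Pool.Agent.PP.KF
open Pool.Agent.PP.K9 Pool.Agent.PP.K9.H97 Pool.Agent.PP.H75 Pool.Agent.PP.T3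

attribute [local instance] Ideal.Quotient.field

/-- the number of ordinary characters modulo `ℓ ^ 2` -/
theorem k2 (sye : SyeStmt) (k2b : K2bStmt) {ℓ : ℕ} [Fact ℓ.Prime]
    {M : Ideal (integralClosure ℤ ℂ)} [M.IsMaximal] (hM : (ℓ : integralClosure ℤ ℂ) ∈ M)
    (h5 : 5 ≤ ℓ) {V₀ G : Type} [CommGroup V₀] [Finite V₀] [Group G] [Finite G]
    {E₀ : Subgroup (MulAut V₀)} (hFr : Fr ℓ V₀ E₀) {e : G → FF M} {V : Subgroup G} {γ : G → FF M}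
    (hL : Ld ℓ e V γ) {i : V₀ →* G} (hi : Function.Injective i) (hr : i.range = V)
    (h1 : ∀ t ∈ Tg V γ, ∃ σ ∈ E₀, ∀ v, t * i v * t⁻¹ = i (σ v))
    (h2 : ∀ σ ∈ E₀, ∃ t ∈ Tg V γ, ∀ v, t * i v * t⁻¹ = i (σ v)) :
    ((ℓ ^ 2 : ℕ) : ℤ) ∣ ((IrrE M e).ncard : ℤ) - ((Irr (V₀ ⋊[E₀.subtype] E₀)).ncard : ℤ) := by
  subst hr
  obtain ⟨B, rfl, -, -, hB⟩ := sye ℓ M hM V₀ G E₀ hFr e γ i hi hL h1 h2
  exact k2b ℓ M hM h5 V₀ G E₀ hFr B hB

/-- S2A -/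
theorem s2a (sye : SyeStmt) (k2b : K2bStmt) (kln : KlnStmt) (esy : EsyStmt) (nvt : T3.NvtStmt)
    (lfr : T8.LfrStmt) (chv : K9.ChvStmt) : S2aStmt := by
  intro ℓ hℓ M _ hM h5 G _ _ e V γ hL hFr hexp hcd
  have hl2 : ℓ ≠ 2 := by omega
  have hp := hℓ.out
  obtain ⟨V₀, _, _, E₀, i, j, hFr0, ⟨hi, hir, hi1, hi2⟩, hj, hjr, hj1, hj2⟩ :=
    esy ℓ M hM G e V γ hL hFr hexp hcd
  obtain ⟨hLN, hix⟩ := nvt ℓ M hM G e V γ hL
  have hk1 := k2 sye k2b hM h5 hFr0 hL hi hir hi1 hi2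
  have hk2 := k2 sye k2b hM h5 hFr0 hLN hj hjr hj1 hj2
  have hVX : V ≤ Subgroup.normalizer (V : Set G) := Subgroup.le_normalizer
  have hCX := T3.H85.cent_le_norm V
  have hFrN : T8.Fr (V.subgroupOf (Subgroup.normalizer (V : Set G)))
      (fun t : Subgroup.normalizer (V : Set G) => γ t) := by
    intro t ht v hv hv1 hc
    rw [T3.H85.Tg_eq hVX hCX hL.gam.supp, Subgroup.mem_subgroupOf] at ht
    rw [cent_sub hVX]
    exact hFr t ht.1 v (Subgroup.mem_subgroupOf.1 hv) (fun h => hv1 (Subtype.ext h))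
      (congrArg Subtype.val hc)
  have hVne : V ≠ ⊥ := by
    rintro rfl
    rw [Subgroup.card_bot] at hcd
    have : 1 < ℓ ^ 2 := Nat.one_lt_pow two_ne_zero hp.one_lt
    omega
  have hcdN : Nat.card (V.subgroupOf (Subgroup.normalizer (V : Set G))) = ℓ ^ 2 := by
    rw [← hcd]
    exact Nat.card_congr (Subgroup.subgroupOfEquivOfLe hVX).toEquiv
  have hVneN : V.subgroupOf (Subgroup.normalizer (V : Set G)) ≠ ⊥ := by
    intro h
    rw [h, Subgroup.card_bot] at hcdN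
    have : 1 < ℓ ^ 2 := Nat.one_lt_pow two_ne_zero hp.one_lt
    omega
  have hn1 := kln ℓ M hM hl2 G e V γ hL hVne hFr
  have hn2 := kln ℓ M hM hl2 _ _ _ _ hLN hVneN hFrN
  have hb1 := lfr ℓ M hM hl2 G e V γ hL hVne hFr
  have hb2 := lfr ℓ M hM hl2 _ _ _ _ hLN hVneN hFrN
  have hc1 := (H3.lbd ℓ M hM G e hL.blk.1 hL.blk.2.1).1
  have hc2 := (H3.lbd ℓ M hM _ _ hLN.blk.1 hLN.blk.2.1).1
  rw [hix] at hn2 hb2
  rw [hcd] at hn1
  rw [hcdN] at hn2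
  have hchv := chv ℓ M hM G e hL.blk V hL.tp hcd
  obtain ⟨N, hN⟩ : ∃ N : ℕ, N = ln (fun t : Subgroup.normalizer (V : Set G) => br V e t) :=
    ⟨_, rfl⟩
  obtain ⟨K, hK⟩ : ∃ K : ℕ, K = (IrrE M
    (fun t : Subgroup.normalizer (V : Set G) => br V e t)).ncard := ⟨_, rfl⟩
  change YY ℓ ⊤ e = (Nat.card G : ℤ) * (ln e : ℤ) - (Nat.card G : ℤ) *
    (ln (fun t : Subgroup.normalizer (V : Set G) => br V e t) : ℤ) at hchv
  change 1 ≤ ln e at hc1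
  change 1 ≤ ln (fun t : Subgroup.normalizer (V : Set G) => br V e t) at hc2
  rw [← hN] at hchv hn2 hb2 hc2
  rw [← hK] at hn2 hk2
  -- the inertial index
  have hixp : 0 < ix V γ := Nat.pos_of_ne_zero (by
    unfold ix
    exact Subgroup.index_ne_zero_of_finite)
  have hl25 : 1 < ℓ ^ 2 := Nat.one_lt_pow two_ne_zero hp.one_lt
  have hixd : ix V γ ≤ ℓ ^ 2 - 1 := by
    refine Nat.le_of_dvd (by omega) ?_
    have h1 : ix V γ ∣ ln e * ix V γ + (ℓ ^ 2 - 1) := ⟨_, (hn1.symm.trans (mul_comm _ _))⟩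
    exact (Nat.dvd_add_right (Dvd.intro_left _ rfl)).1 h1
  -- the differences
  have e1 : (((IrrE M e).ncard : ℤ) - K) * ix V γ = ((ln e : ℤ) - N) * ix V γ := by
    have h1 : ((IrrE M e).ncard : ℤ) * ix V γ = ln e * ix V γ + (ℓ ^ 2 - 1 : ℕ) := by
      exact_mod_cast hn1
    have h2 : (K : ℤ) * ix V γ = N * ix V γ + (ℓ ^ 2 - 1 : ℕ) := by exact_mod_cast hn2
    linear_combination h1 - h2
  have e2 : ((IrrE M e).ncard : ℤ) - K = (ln e : ℤ) - N :=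
    mul_right_cancel₀ (by exact_mod_cast hixp.ne') e1
  have e3 : ((ℓ ^ 2 : ℕ) : ℤ) ∣ (ln e : ℤ) - N := by
    rw [← e2]
    have := dvd_sub hk1 hk2
    rwa [sub_sub_sub_cancel_right] at this
  have e4 : (ln e : ℤ) - N = 0 := by
    refine Int.eq_zero_of_abs_lt_dvd e3 ?_
    rw [abs_lt]
    constructor
    · have : ((ℓ ^ 2 : ℕ) : ℤ) > 0 := by exact_mod_cast (by omega : 0 < ℓ ^ 2)
      have h6 : (N : ℤ) ≤ ((ℓ ^ 2 - 1 : ℕ) : ℤ) := by exact_mod_cast hb2.trans hixd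
      have h7 : ((ℓ ^ 2 - 1 : ℕ) : ℤ) = ((ℓ ^ 2 : ℕ) : ℤ) - 1 := by
        rw [Nat.cast_sub (by omega), Nat.cast_one]
      have h8 : (1 : ℤ) ≤ ln e := by exact_mod_cast hc1
      linarith
    · have h6 : (ln e : ℤ) ≤ ((ℓ ^ 2 - 1 : ℕ) : ℤ) := by exact_mod_cast hb1.trans hixd
      have h7 : ((ℓ ^ 2 - 1 : ℕ) : ℤ) = ((ℓ ^ 2 : ℕ) : ℤ) - 1 := by
        rw [Nat.cast_sub (by omega), Nat.cast_one]
      have h8 : (1 : ℤ) ≤ N := by exact_mod_cast hc2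
      linarith
  rw [hchv, ← mul_sub, e4, mul_zero]

end Pool.Agent.PP.SO.H43
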