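import Pool.Agent.Helper10_ASO.LAC
import Pool.Agent.Helper10_ASO.NTM
import Pool.Agent.Helper10_ASO.W12B
import Pool.Agent.Helper13_ASO.KCM
import Pool.Agent.Helper13_ASO.KM2
import Pool.Agent.Helper13_ASO.LHF
import Pool.Agent.Helper15_ASO.CMB
import Pool.Agent.Helper17_ASO.LC3
import Pool.Agent.Helper18_ASO.LCM
import Pool.Agent.Helper1_ASO.SYE
import Pool.Agent.Helper25_ASO.LC2
import Pool.Agent.Helper25_ASO.M12
import Pool.Agent.Helper27_ASO.GAU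
import Pool.Agent.Helper33_ASO.NSVA
import Pool.Agent.Helper35_ASO.CNG
import Pool.Agent.Helper35_ASO.LSM
import Pool.Agent.Helper37_ASO.LTB
import Pool.Agent.Helper3_ASO.INF
import Pool.Agent.Helper3_ASO.MUL
import Pool.Agent.Helper40_ASO.LBG
import Pool.Agent.Helper43_ASO.CMG
import Pool.Agent.Helper43_ASO.ESY
import Pool.Agent.Helper43_ASO.FRD
import Pool.Agent.Helper43_ASO.KLN
import Pool.Agent.Helper43_ASO.S2A
import Pool.Agent.Helper45_ASO.LC1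
import Pool.Agent.Helper47_ASO.CMO
import Pool.Agent.Helper48_ASO.FIN
import Pool.Agent.Helper48_ASO.PEX
import Pool.Agent.Helper56_ASO.LT1
import Pool.Agent.Helper59_ASO.PRJ
import Pool.Agent.Helper59_ASO.SSL
import Pool.Agent.Helper62_ASO.LBS
import Pool.Agent.Helper62_ASO.RSL
import Pool.Agent.Helper63_ASO.W12A
import Pool.Agent.Helper65_ASO.CMP
import Pool.Agent.Helper65_ASO.KM1
import Pool.Agent.Helper65_ASO.WZE
import Pool.Agent.Helper67_ASO.KCP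
import Pool.Agent.Helper69_ASO.CJT
import Pool.Agent.Helper69_ASO.LAV
import Pool.Agent.Helper70_ASO.RTX
import Pool.Agent.Helper70_ASO.RTY
import Pool.Agent.Helper76_ASO.CMI
import Pool.Agent.Helper76_ASO.FUW
import Pool.Agent.Helper79_ASO.DGV
import Pool.Agent.Helper79_ASO.WTH
import Pool.Agent.Helper7_ASO.K2B
import Pool.Agent.Helper81_ASO.ISO
import Pool.Agent.Helper82_ASO.GPR
import Pool.Agent.Helper84_ASO.KAR
import Pool.Agent.Helper86_ASO.ONB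
import Pool.Agent.Helper89_ASO.LBU
import Pool.Agent.Helper90_ASO.CPG
import Pool.Agent.Helper91_ASO.LQS
import Pool.Agent.Helper92_ASO.LIA
import Pool.Agent.Helper97_ASO.BRD
import Pool.Agent.Helper9_ASO.MBI
import Pool.Agent.Helper9_ASO.PPC
import Pool.Agent.Helper66_SOR.Asm
import Pool.Agent.Helper66_ASO.AsmH
import Pool.Agent.AT8.Asm
import Pool.Agent.Helper66_AT6.Asm
import Pool.Agent.Helper11_AT5.Asm5
import Pool.Agent.Helper23_AT3.RTC

/-!
# Squad ASO: the statements, closed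

`fno_ : FnoStmt`: blocks with abelian defect group of order `ℓ ^ 2` modulo `O_ℓ(G)`, `ℓ ≥ 5`, and an
inertial quotient which acts freely.
-/

noncomputable section

namespace Pool.Agent.PP.SO

open Pool.Agent.PP Pool.Agent.PP.K9 Pool.Agent.PP.T3

theorem brd_ : BrdStmt := H97.brd
theorem ntm_ : NtmStmt := H10.ntm
theorem gau_ : GauStmt := H27.gau
theorem rty_ : RtyStmt := H70.rty SOR.uni_ SOR.brx_
theorem rtx_ : RtxStmt := H70.rtx rty_
theorem lbu_ : LbuStmt := H89.lbu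
theorem lbg_ : LbgStmt := H40.lbg
theorem sye_ : SyeStmt := H1.sye lbu_ lbg_
theorem dgv_ : DgvStmt := H79.dgv hta_
theorem cjt_ : CjtStmt := H69.cjt lbu_
theorem fuw_ : FuwStmt := H76.fuw
theorem iso_ : IsoStmt := H81.iso
theorem nsv_ : NsvStmt := H33.nsv lbg_ iso_
theorem mul_ : MulStmt := H3.mul nsv_
theorem prj_ : PrjStmt := H59.prj
theorem cng_ : CngStmt := H35.cng prj_ nsv_ dgv_
theorem lac_ : LacStmt := H10L.lac cng_
theorem mbi_ : MbiStmt := H9.mbi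
theorem lbs_ : LbsStmt := H62.lbs mbi_
theorem gpr_ : GprStmt := H82.gpr nsv_ fuw_ cjt_
theorem ssl_ : SslStmt := H59.ssl gpr_ nsv_ cjt_
theorem wth_ : WthStmt := H79.wth ssl_ nsv_
theorem w12a_ : W12AStmt := H63.w12a K9.wbo_ nsv_ fuw_ cjt_ mul_
theorem w12b_ : W12BStmt := H10W.w12b ssl_ nsv_
theorem wze_ : WzeStmt := H65.wze T3.smg_
theorem m12_ : M12Stmt := H25.m12 mbi_ wze_
theorem fin_ : FinStmt := H48.fin lac_ lbs_ mbi_ wth_ w12a_ w12b_ m12_ wze_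
theorem ppc_ : PpcStmt := H9P.ppc
theorem cpg_ : CpgStmt := H90.cpg fin_ rtx_ ppc_ homr_
theorem pex_ : PexStmt := H48.pex
theorem inf_ : InfStmt := H3.inf
theorem onb_ : OnbStmt := H86.onb
theorem cmg_ : CmgStmt := H43.cmg
theorem cmi_ : CmiStmt := H76.cmi inf_ onb_
theorem cmo_ : CmoStmt := H47.cmo
theorem cmb_ : CmbStmt := H15.cmb cmg_ cmi_ cmo_
theorem cmp_ : CmpStmt := H65.cmp cmb_
theorem ltb_ : LTbStmt := H37.ltb
theorem lsm_ : LSmStmt := H35.lsm ltb_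
theorem lhf_ : LHfStmt := H13.lhf ltb_ lsm_
theorem lt1_ : LT1Stmt := H56.lt1 lsm_
theorem lid_ : LIdStmt := H35.lid lt1_
theorem lav_ : LAvStmt := H69.lav
theorem lc1_ : LC1Stmt := H45.lc1 lav_
theorem lc2_ : LC2Stmt := H25.lc2 ltb_ lsm_
theorem lcm_ : LCmStmt := H18.lcm ltb_
theorem lqu_ : LQuStmt := H91.lqu lcm_
theorem lqs_ : LQsStmt := H91.lqs
theorem lc3_ : LC3Stmt := H17.lc3 lqu_ lqs_ lcm_ ltb_
theorem lia_ : LIaStmt := H92.lia lhf_ lid_ lc1_ lc2_ lc3_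
theorem rsl_ : RslStmt := H62.rsl
theorem kcp_ : KcpStmt := H67.kcp
theorem km1_ : Km1Stmt := H65.km1 rsl_ kcp_
theorem km2_ : Km2Stmt := H13.km2 rsl_ km1_
theorem kar_ : KarStmt := H84.kar km2_ lia_ kcp_
theorem kcm_ : KcmStmt := H13.kcm cpg_ hco_ kar_
theorem k2b_ : K2bStmt := H7.k2b kcm_ cmp_ pex_ cjt_
theorem kln_ : KlnStmt := H43.kln T3.loc_ T3.lsb_ T3.rgl_ T8.rg1_ T8.lfr_ T3.co1_ T3.smg_ T3.lrk_ T6.cpl_
theorem esy_ : EsyStmt := H43.esy
theorem s2a_ : S2aStmt := H43.s2a sye_ k2b_ kln_ esy_ T3.nvt_ T8.lfr_ K9.chv_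
theorem frd_ : FrdStmt := H43.frd T3.flt_ T2.dza_ T8.qt3_ K9.H34.inx
theorem fno_ : FnoStmt := H43.fno frd_ s2a_ T5.t5a_

end Pool.Agent.PP.SO
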